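import Mathlib
import Pool.Agent.TH170.GS.Main
import Pool.Agent.Y1.KN.All
import Pool.Agent.Y1.KN.Use
import Pool.Agent.TH170.FT.CommonDefs
import Pool.Agent.TH170.FT.MT

/-!
# Common `ℚ`-form of the `ℓ`-adic monodromy groups of abelian varieties with a Frobenius element in
almost all slope types of all CM fields with few CM subfields, and of all CM fields whose degree has
a large prime factor

Let `A` be an abelian variety over a number field, of any dimension and with arbitrary endomorphisms,
which has good reduction at some place `v`, with a residue field of `p ^ a` elements. Suppose that the
characteristic polynomial of the Frobenius element at `v` is the product of the minimal polynomials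
of Weil numbers `π i` that generate CM fields `K i` of degree `2 g i` (`HasFrobenius`); so
`dim A = ∑ i, g i`. Nothing is assumed about the Galois groups of the fields `K i`; they are pairwise
independent: for `i ≠ k` and all complex embeddings `φ` of `K i` and `ψ` of `K k` some automorphism
of `ℂ` is the identity on `φ (K i)` and the complex conjugation on `ψ (K k)` (this is no condition if
there is only one field).

We fix an isomorphism `ν` of the algebraic closure of `ℚ_p` with `ℂ`; it defines a `p`-adic valuation
of `ℂ`, with the value one at `p`. Let `M i` be a function with nonzero integral values, all of which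
divide `n i`, on the complex embeddings of `K i`, invariant under complex conjugation. A CM type
`Φ i` of `K i` (a choice of one element out of each complex conjugate pair of embeddings; there are
`2 ^ (g i)` types), `M i` and a real number `κ ≠ 0` prescribe the slopes `(a + κ M) / 2` (at the
embeddings in `Φ i`) and `(a - κ M) / 2` (outside of `Φ i`) of a Weil number in `K i` (`IsOfType`). If
`p` splits completely in `K i` then, by Honda and Tate, all slopes with rational values between `0`
and `a` that are symmetric in this way occur for abelian varieties over finite fields. The case
`M = 1`, `κ = a` is the case of ordinary reduction; the assumption on `M` says that `a / 2` is not a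
slope. Slopes are rational, so integral weights `M` are no restriction.

There are `2 ^ (∑ i, g i)` families of CM types `Φ i` of the fields `K i`. A family is exceptional
(`exceptionalFamilies ν K M`) if the following statement (`Holds`) is false for it: for all abelian
varieties `A` as above with Weil numbers `π i` of the slope types `Φ i`, and all `ℓ₀` (such that the
Frobenius element has this characteristic polynomial for the primes `ℓ ≥ ℓ₀`; so `ℓ₀ > p`), for all
prime numbers `ℓ ≥ ℓ₀` and all `m` each `ℓ`-adic Tate class in `(H^1)^{⊗ 2 m}(m)` is a linear
combination, with coefficients in `ℚ_ℓ`, of rational forms on `W = H_1(A, ℚ)` which are Tate classes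
for all prime numbers `≥ ℓ₀` and products of Hodge classes of degree two (`HasCommonForm`). The
identity component of the Zariski closure of the image of the Galois group is reductive and contains
the homotheties; it is the group of the elements of `GSp` which fix all Tate classes. So there is an
algebraic group over `ℚ` (the identity component of the Lefschetz group, which consists of the
similitudes of the polarization form that commute with the endomorphisms of `A`) which becomes
the connected monodromy group over `ℚ_ℓ` for all `ℓ ≥ ℓ₀`; this translation is the one of MP_e965d0_ag
QuarticForms and it is not formalized.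

In the formal statement `per` is the inclusion of `W` in the tangent space, `ω₀` the form given by a
polarization, and `D ℓ` (`GaloisData`) consists of the action of the Galois group on the rational
Tate module `ℚ_ℓ ⊗ W`, the cyclotomic character, the Weil pairing, the theorems of Faltings on
endomorphisms and on semisimplicity (`IsRealization`) and the theorem of Deligne that Hodge classes
are Tate classes. That the absence of relations between the conjugates of the Weil numbers of one
Frobenius element implies the Mumford-Tate conjecture was formalized before (MP_c1bb77_ag
OneFrobeniusTowers); new is that this holds for almost all slope types in arbitrary CM fields. The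
Mumford-Tate conjecture for these abelian varieties is MP_33b3f9_ag AlmostAllFrobeniusTypes.

The theorem bounds the number of the exceptional families: it is at most
`2 ^ (∑ i, g i) * ∑ i, C * (n i) ^ 2 * rate (K i) (g i) (q i)`, with an absolute constant `C`. Here
`q i` is any prime factor of `g i` (or `q i = 1`), and `rate K g q` is `(1 + log (2 g)) ^ 16` times
the smaller of the numbers

* `W (K) / √g`, where (second part of the theorem, `WeightEstimate`) `W (K) ≤ N ^ 2 * D ^ (1 / 4)`;
  `N` is the number of the CM subfields of `K` (with `K`) and `D` is the largest degree of a CM
  subfield of `K` that is normal over `ℚ` with a nonabelian Galois group (`D = 1` if there are none);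
* `√g / q`.

So the exceptional types are a proportion `O (n ^ 2 * g ^ (-1 / 4) * (log g) ^ 16)` of all types of
all CM fields with a bounded number of CM subfields, and `O (n ^ 2 * g ^ (-1 / 2) * (log g) ^ 16)` if
the normal nonabelian ones have bounded degrees (for instance if `K` has no proper CM subfields and
is not normal). The exponent `1 / 2` is sharp if `K` contains an imaginary quadratic field. And they
are a proportion `O (n ^ 2 * g ^ (-δ) * (log g) ^ 16)` of the types of all CM fields `K`, with any
number of subfields, whose degree is divisible by a prime number `q ≥ g ^ (1 / 2 + δ)`; for small `δ`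
there are such primes for about `log 2`, that is 69%, of all numbers `g`. Some assumption is
necessary: a multiquadratic CM field of degree `2 g` has `g` imaginary quadratic subfields, and by a
second moment argument almost all of its types are degenerate. The bound of the starting files
(`AlmostAllFrobeniusTypes`) is a sum over the isotypic components of the odd part of the permutation
representation. It contains the logarithm of the order of the Galois group, and gives nothing if this
order is large and some components have high multiplicities. Here nothing is assumed about the
Galois group and the multiplicities.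

The number `W (K)` (`subfieldWeight K`) is defined as follows. The automorphisms of `ℂ` act on the
rational functions on the set of the complex embeddings of `K` which change their sign under complex
conjugation. A field of definition (`fieldsOfDefinition K`) of an isotypic component of this
representation is a smallest subfield `F` of `K` such that the values of the functions in the
component depend only on the restrictions of the embeddings to `F`. It is a CM field. Then `W (K)` is
the sum over these fields `F` of the number of the CM subfields of `F`, multiplied by
`[F : ℚ] ^ (1 / 4)` if `F` is normal over `ℚ` and its Galois group is not abelian.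

The proof. If there are relations between the conjugates of the Weil numbers that are not generated
by those of the complex conjugate pairs, then for one of the types the sign function, multiplied by `M`, is
orthogonal to a minimal Galois-stable space `S` of dimension `d`; let `h` be the dimension of the
part of `S` fixed by the stabilizer of an embedding, `e` the dimension of the algebra of the
endomorphisms of `S`. (1) The types orthogonal to some space isomorphic to `S` are at most
`2 ^ g * h d / (e ^ 2 √g)`, by an inequality for the kernels of sums of matrices with random signs.
(2) If `F` is the field of definition then `S` is a faithful representation of the Galois group `G`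
of `F`, so that the order of `G` is at most `(2 g) ^ b` if `d (1 - h / d) ^ b < 1`; this permits to use
reductions modulo primes of the size `√(g / d)` (as in the starting files) or larger primes, whatever
the order of `G` is, and gives the bound `2 ^ g * C * n ^ 2 * (h d / (e g_F)) * (log g) ^ 16 / √g`,
`2 g_F = [F : ℚ]`, if `c = e + d - h ≥ 3`. The sum of the numbers `h d / e` for one field `F` is at
most `g_F`. (3) If `c ≤ 2` then `F` is normal, or some involution acts as a reflection on `S` and
generates the stabilizer. The number of these `S` is estimated by the number of the CM subfields of
`F`: in the first case since rational characters are determined by their values on cyclic subgroups;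
in the second case `S` is determined by a quadratic character of the centralizer of the involution.
(4) For the second bound: the `S` of dimension less than `q - 1` come from a subfield of degree at
most `2 g / q`, and there are at most `2 g / q` others.
-/

namespace Pool.Agent.Results.MP_e965d0_ag.AllCMFields

open NumberField Module Pool.Agent.H204R3.CM Pool.Agent.H977R3.CM Pool.Agent.TH170
  Pool.Agent.Y1.KN

/-- The common `ℚ`-form for the abelian varieties with a Frobenius element whose characteristic
polynomial is the product of the minimal polynomials of Weil numbers `π i` for `p ^ a` with the slope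
types `Φ i`, `M i`. -/
def HoldsAt {p : ℕ} [Fact p.Prime] (ν : PadicAlgCl p ≃+* ℂ) {I : Type} [Fintype I]
    (K : I → Type) [∀ i, Field (K i)] [∀ i, NumberField (K i)] [∀ i, IsCMField (K i)]
    (M : ∀ i, (K i →+* ℂ) → ℤ) (Φ : ∀ i, Set (K i →+* ℂ)) (a : ℕ) (π : ∀ i, K i) : Prop :=
  ∀ (W T Γ : Type) [AddCommGroup W] [Module ℚ W] [FiniteDimensional ℚ W] [AddCommGroup T]
    [Module ℂ T] [Group Γ] (per : W →+ T) (ω₀ : W →ₗ[ℚ] W →ₗ[ℚ] ℚ)
    (D : ∀ (ℓ : ℕ) [Fact ℓ.Prime], FT.GaloisData per ω₀ Γ ℓ) (ℓ₀ : ℕ),
    FT.IsOfType ν a K M Φ π →
      (∀ (ℓ : ℕ) [Fact ℓ.Prime], ℓ₀ ≤ ℓ → FT.HasFrobenius (D ℓ).ρ (D ℓ).χ p a π) →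
        FT.HasCommonForm D ℓ₀

/-- The common `ℚ`-form for all abelian varieties with a Frobenius element whose characteristic
polynomial is the product of the minimal polynomials of Weil numbers with the slope types `Φ i`,
`M i`. -/
def Holds {p : ℕ} [Fact p.Prime] (ν : PadicAlgCl p ≃+* ℂ) {I : Type} [Fintype I]
    (K : I → Type) [∀ i, Field (K i)] [∀ i, NumberField (K i)] [∀ i, IsCMField (K i)]
    (M : ∀ i, (K i →+* ℂ) → ℤ) (Φ : ∀ i, Set (K i →+* ℂ)) : Prop :=
  ∀ (a : ℕ) (π : ∀ i, K i), 0 < a → HoldsAt ν K M Φ a π

/-- The exceptional families of CM types. -/
def exceptionalFamilies {p : ℕ} [Fact p.Prime] (ν : PadicAlgCl p ≃+* ℂ) {I : Type} [Fintype I]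
    (K : I → Type) [∀ i, Field (K i)] [∀ i, NumberField (K i)] [∀ i, IsCMField (K i)]
    (M : ∀ i, (K i →+* ℂ) → ℤ) : Set (∀ i, Set (K i →+* ℂ)) :=
  {Φ | (∀ i, IsCMType (Φ i)) ∧ ¬ Holds ν K M Φ}

/-- **Common `ℚ`-form of the `ℓ`-adic monodromy groups of abelian varieties with a Frobenius element
in almost all slope types of all CM fields with few CM subfields, and of all CM fields whose degree
has a large prime factor.** -/
theorem result :
    (∃ C : ℝ, 0 ≤ C ∧ ∀ (p : ℕ) [Fact p.Prime] (ν : PadicAlgCl p ≃+* ℂ) (I : Type) [Fintype I]
      (K : I → Type) [∀ i, Field (K i)] [∀ i, NumberField (K i)] [∀ i, IsCMField (K i)]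
      (M : ∀ i, (K i →+* ℂ) → ℤ) (n g q : I → ℕ), PairwiseIndep K →
      (∀ i φ, M i (ComplexEmbedding.conjugate φ) = M i φ) → (∀ i, n i ≠ 0) →
      (∀ i φ, M i φ ∣ (n i : ℤ)) → (∀ i, finrank ℚ (K i) = 2 * g i) →
      (∀ i, q i ∣ g i ∧ (q i = 1 ∨ (q i).Prime)) →
      ((exceptionalFamilies ν K M).ncard : ℝ) ≤
        2 ^ (∑ i, g i) * ∑ i, C * (n i : ℝ) ^ 2 * rate (K i) (g i) (q i)) ∧
    WeightEstimate := by
  obtain ⟨C, hC0, hC⟩ := families_holds
  refine ⟨⟨C, hC0, ?_⟩, weight_estimate_holds⟩
  intro p _ ν I _ K _ _ _ M n g q hind hM hn hMn hg hq
  refine hC I K M n g q hM hn hMn hg hq (Holds ν K M) ?_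
  exact fun _ hΦ hnd _ _ ha _ _ _ _ _ _ _ _ _ _ _ D ℓ₀
    hπ hF => FT.hasCommonForm_of D ℓ₀ fun ℓ _ hℓ =>
      FT.mumfordTate_of_types hind hM hΦ hnd ha hπ (D ℓ).realization (hF ℓ hℓ)

end Pool.Agent.Results.MP_e965d0_ag.AllCMFields
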