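import Mathlib
import Pool.Agent.Y144.QF.Glue

/-!
# Common `ℚ`-form of the `ℓ`-adic monodromy groups: places of bad reduction of any toric rank

Let `A` be an abelian variety over a number field `F`, `V = H_1(A(ℂ), ℚ)` with a basis indexed by
`ι`, `ψ` the matrix of a Riemann form, `E` the set of the matrices of the endomorphisms of `A` over
the algebraic closure of `F`, `Γ` the absolute Galois group of `F`, `ρ ℓ` its representation on
`V_ℓ = V ⊗ ℚ_ℓ` and `χ ℓ` the cyclotomic character.  The structure `Known` collects the known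
properties of `ρ ℓ` (Weil pairing, Faltings, Hodge-Tate, Pink).

The *strongly irreducible* subspaces `U` (predicate `SI`) of `ℚ_ℓ^alg ⊗ V_ℓ` are the minimal nonzero
subspaces that are stable under a subgroup of finite index of `Γ`.  If `End(A) = ℤ` there is just
one, the whole space.  All of them are self-dual with an alternating pairing exactly if all simple
factors of `A` are of type I or II in Albert's classification.

Let `v` be a place of bad semistable reduction (with split torus, after a finite extension), `γ` an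
element of the inertia group at `v` that acts nontrivially and `F` a Frobenius element.  Then
`(γ - 1) ^ 2 = 0`, the rank `t` of `γ - 1` is the toric rank, and the eigenvalues of `F` are `1` and
`q`, with multiplicity `t`, and the eigenvalues, of weight one, of the Frobenius on the abelian part
of the reduction.  The hypothesis for `End(A) = ℤ`, `g = dim A`: the toric rank, or the multiplicity
of a nonzero eigenvalue of `(γ - 1) (g γ g⁻¹ - 1)` for some `g` in `Γ`, is two or odd; or
`F` has an eigenvalue of odd multiplicity and `t < g / 2` or some eigenvalue of weight one has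
multiplicity smaller than `g / 4`.  For example, for `g ≥ 5`: some eigenvalue of weight one
is simple.  There is no condition on the toric rank.

Theorem: if this holds for all primes `ℓ ≥ ℓ₀` there is an algebraic group `G ⊆ GSp(V, ψ)` over
`ℚ`, given by a set `S` of polynomials over `ℚ`, namely the Lefschetz group (the similitudes of `ψ`
that commute with `E`), such that `G_{ℚ_ℓ}` is the identity component of the Zariski closure of
`ρ ℓ (Γ')` for all primes `ℓ ≥ ℓ₀` and all subgroups `Γ'` of finite index (all finite extensions of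
`F`).
-/

set_option autoImplicit false

namespace Pool.Agent.Results.MP_e965d0_ag.BadPlaces

open Module Pool.Agent.W528.ZC Pool.Agent.W522.U Pool.Agent.Y144.QF
open Pool.Agent.W528.Tor (AltDual)
open Pool.Agent.Y126.Toric (IsDefect)

noncomputable section

section conditions

variable {K X Γ : Type} [Field K] [AddCommGroup X] [Module K X] [Group Γ]

/-- The algebraic multiplicity of the eigenvalue `a` of `F` on the subspace `U`. -/
def mult (R : Representation K Γ X) (F : Γ) (U : Submodule K X) (a : K) : ℕ :=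
  finrank K (Module.End.maxGenEigenspace (R F) a ⊓ U : Submodule K X)

/-- `F` is a diagonalizable element that maps `γ - 1` to `χ F` times itself under conjugation, and
the eigenvalues of `F` are: `1`; elements `a` of weight `w a = 1 / 2`; and `χ F`, with eigenvectors
in the image of `γ - 1`.  Here the weight `w` is a homomorphism from the multiplicative group of `K`
to the rational numbers with `w (χ F) = 1`. -/
def IsFrobenius (R : Representation K Γ X) (χ : Γ →* K) (w : Additive Kˣ →+ ℚ) (γ F : Γ) : Prop :=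
  R F * (R γ - 1) = χ F • ((R γ - 1) * R F) ∧
    ∃ (n : ℕ) (b : Basis (Fin n) K X) (a : Fin n → Kˣ) (c : Kˣ),
      (c : K) = χ F ∧ w (Additive.ofMul c) = 1 ∧ (∀ i, R F (b i) = (a i : K) • b i) ∧
      ∀ i, a i = 1 ∨ w (Additive.ofMul (a i)) = 1 / 2 ∨
        (a i = c ∧ b i ∈ LinearMap.range (R γ - 1))

/-- Every strongly irreducible subspace `U` is self-dual with an alternating pairing, and there is
an element `γ` of the group with `(γ - 1) ^ 2 = 0` such that

* some defect of `γ` on `U` (the rank of `γ - 1` on `U`, or the multiplicity on `U` of a nonzero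
  eigenvalue of `(γ - 1) (γ' - 1)`, where `(γ' - 1) ^ 2 = 0`) is two or odd, or
* `γ` is not trivial on `U`, and for some `F` as above that maps `U` to `U`, some eigenvalue of `F`
  on `U` has odd multiplicity, and either four times the greatest common divisor of the defects
  of `γ` on `U` (which include the rank) is smaller than the dimension of `U`, or some eigenvalue of
  weight `1 / 2` of `F` on `U` has multiplicity smaller than an eighth of it. -/
def HasBadPlaces (R : Representation K Γ X) (χ : Γ →* K) : Prop :=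
  ∀ U, SI R U → AltDual R χ U ∧ ∃ γ : Γ, (R γ - 1) * (R γ - 1) = 0 ∧
    ((∃ d, IsDefect R U γ d ∧ (d = 2 ∨ Odd d)) ∨
      (U.map (R γ - 1) ≠ ⊥ ∧ ∃ (w : Additive Kˣ →+ ℚ) (F : Γ), IsFrobenius R χ w γ F ∧
        (∀ u ∈ U, R F u ∈ U) ∧ (∃ a : K, Odd (mult R F U a)) ∧
        ((∀ d, (∀ δ, IsDefect R U γ δ → d ∣ δ) → 4 * d < finrank K U) ∨
          ∃ a : Kˣ, w (Additive.ofMul a) = 1 / 2 ∧ 0 < mult R F U a ∧
            8 * mult R F U a < finrank K U)))

end conditions

/-- The representation `ρ` on the `ℓ`-adic Tate module has the known properties (`Known`), and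
`HasBadPlaces`. -/
def GoodAt {ι : Type} [Fintype ι] [DecidableEq ι] {Γ : Type} [Group Γ] (ψ : Matrix ι ι ℚ)
    (E : Set (Matrix ι ι ℚ)) (ℓ : ℕ) [Fact ℓ.Prime] (ρ : Γ →* Matrix ι ι ℚ_[ℓ])
    (χ : Γ →* ℚ_[ℓ]) : Prop :=
  Known (AlgebraicClosure ℚ_[ℓ]) ρ χ (mapQ ℚ_[ℓ] ψ) (mapQ ℚ_[ℓ] '' E) ∧
    HasBadPlaces (repM ρ (AlgebraicClosure ℚ_[ℓ]))
      ((algebraMap ℚ_[ℓ] (AlgebraicClosure ℚ_[ℓ])).toMonoidHom.comp χ)

theorem result {ι : Type} [Fintype ι] [DecidableEq ι] (ψ : Matrix ι ι ℚ)
    (_halt : ψ.transpose = -ψ) (hψ : IsUnit ψ.det) (E : Set (Matrix ι ι ℚ))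
    {Γ : Type} [Group Γ] (ρ : ∀ (ℓ : ℕ) [Fact ℓ.Prime], Γ →* Matrix ι ι ℚ_[ℓ])
    (χ : ∀ (ℓ : ℕ) [Fact ℓ.Prime], Γ →* ℚ_[ℓ]) (ℓ₀ : ℕ)
    (hgood : ∀ (ℓ : ℕ) [Fact ℓ.Prime], ℓ₀ ≤ ℓ → GoodAt ψ E ℓ (ρ ℓ) (χ ℓ)) :
    ∃ S : Set (MvPolynomial (ι × ι) ℚ),
      (∀ (L : Type) [Field L] [Algebra ℚ L] (g : Matrix ι ι L), IsUnit g.det →
        (IsZeroOf S g ↔ InLefschetz ψ E g)) ∧
      ∀ (ℓ : ℕ) [Fact ℓ.Prime], ℓ₀ ≤ ℓ → ∀ Γ' : Subgroup Γ, Γ'.FiniteIndex →
        ∀ g : Matrix ι ι (AlgebraicClosure ℚ_[ℓ]), IsUnit g.det →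
          (InIdentityComponent ((ρ ℓ).comp Γ'.subtype) g ↔ IsZeroOf S g) := by
  refine common_form ψ hψ E ρ χ ℓ₀ fun ℓ _ hℓ => ⟨(hgood ℓ hℓ).1, ?_⟩
  refine hasOne_of (unit_mapQ hψ ℓ) (hgood ℓ hℓ).1 fun L hL hnd hω hss hP hsl U hU => ?_
  obtain ⟨halt, γ, hγ, hγ'⟩ := (hgood ℓ hℓ).2 U hU
  refine ⟨halt, ?_⟩
  rcases hγ' with ⟨d, hd, hd2⟩ | ⟨h0, w, F, ⟨hFN, n, b, a, c, hc, hwc, hF, ha⟩, hFU, hodd, hsmall⟩
  · exact one_of_alt hL hnd hω hss hU halt hγ hd (hd2.imp_right fun h => ⟨h, hP⟩)
  · refine one_of_frob hL hnd hω hss hU halt hP hγ h0 hFN hFU hc hwc hF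
      (hsl F b a c w hF hc hwc) ha hodd ?_
    rcases hsmall with h | ⟨t, ht, hpos, h8⟩
    · exact Or.inl h
    · refine Or.inr ⟨t, ht, ?_, h8⟩
      intro hbot
      unfold mult at hpos
      rw [hbot, finrank_bot] at hpos
      exact lt_irrefl _ hpos

end

end Pool.Agent.Results.MP_e965d0_ag.BadPlaces
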