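import Mathlib
import Pool.Agent.Y144.QF.Glue

/-!
# Common `ℚ`-form of the `ℓ`-adic monodromy groups from Frobenius elements at places of good reduction

Let `A` be an abelian variety over a number field `F`, `V = H_1(A(ℂ), ℚ)` with a basis indexed by
`ι`, `ψ` the matrix of a Riemann form, `E` the set of the matrices of the endomorphisms of `A` over
the algebraic closure of `F`, `Γ` the absolute Galois group of `F`, `ρ ℓ` its representation on
`V_ℓ = V ⊗ ℚ_ℓ` and `χ ℓ` the cyclotomic character.  The structure `Known` collects the known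
properties of `ρ ℓ` (Weil pairing, Faltings, Hodge-Tate, Pink).

The *strongly irreducible* subspaces `U` (predicate `SI`) of `ℚ_ℓ^alg ⊗ V_ℓ` are the minimal nonzero
subspaces that are stable under a subgroup of finite index of `Γ`.  If `End(A) = ℤ` there is just
one, the whole space.  All of them are self-dual with an alternating pairing exactly if all simple
factors of `A` are of type I or II in Albert's classification.

The hypothesis for `End(A) = ℤ`, `g = dim A`: for a power `F` of a Frobenius element at a place of good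
reduction, with eigenvalues `a i`, and a subgroup `W` of the multiplicative group, the condition
`HasFewRatios`; or the condition `HasOrdinaryPair` on two ordinary Frobenius elements.
The first condition is satisfied, for `g ≥ 5`, in the following cases.

* `W = 1`: some eigenvalue `a` is simple, and for each eigenvalue `a' ≠ a` the ratio `a' / a` occurs
  as a ratio of eigenvalues less than `√(2 g)` and less than `g / 2` times.
* `W` is the group of the elements of slope zero and the reduction is ordinary: `g` is odd and, for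
  some unit eigenvalue `a` and each unit eigenvalue `a'`, the number of pairs of unit eigenvalues with
  product `a a'` is less than `g / 2`.
* `W` is the group of the elements of integral slope: the slopes are `0`, `1 / 2` and `1`, `F` is a
  scalar on the part of slope `1 / 2` and some unit eigenvalue is simple.  There is no condition
  on the `p`-rank.

The eigenvalues of `F` are algebraic numbers, with a characteristic polynomial that does not
depend on `ℓ`, so that these are conditions on one place.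

Theorem: if this holds for all primes `ℓ ≥ ℓ₀` there is an algebraic group `G ⊆ GSp(V, ψ)` over
`ℚ`, given by a set `S` of polynomials over `ℚ`, namely the Lefschetz group (the similitudes of `ψ`
that commute with `E`), such that `G_{ℚ_ℓ}` is the identity component of the Zariski closure of
`ρ ℓ (Γ')` for all primes `ℓ ≥ ℓ₀` and all subgroups `Γ'` of finite index (all finite extensions of
`F`).
-/

set_option autoImplicit false

namespace Pool.Agent.Results.MP_e965d0_ag.GoodPlaces

open Module Pool.Agent.W528.ZC Pool.Agent.W522.U Pool.Agent.Y144.QF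
open Pool.Agent.W528.Tor (AltDual)

noncomputable section

section conditions

variable {K X Γ : Type} [Field K] [AddCommGroup X] [Module K X] [Group Γ]

/-- The multiplicity of `c` in the family `a`. -/
def mult {n : ℕ} (a : Fin n → Kˣ) (c : Kˣ) : ℕ := Nat.card {i // a i = c}

/-- The number of times that `x` occurs as a ratio of members of the family `a`: the sum, over all
`c`, of the minimum of the multiplicities of `c` and of `c x`. -/
def coincidences {n : ℕ} (a : Fin n → Kˣ) (x : Kˣ) : ℕ := ∑ᶠ c : Kˣ, min (mult a c) (mult a (c * x))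

/-- For every `k`, the subgroup `H` is generated by the ratios `a j / a k` that it contains. -/
def IsSaturated {n : ℕ} (a : Fin n → Kˣ) (H : Subgroup Kˣ) : Prop :=
  ∀ k, Subgroup.closure {x | x ∈ H ∧ ∃ j, x = a j / a k} = H

/-- Let `a i` be the eigenvalues of `F` on `U`, with an index `i₀`, and let `W` be a subgroup of the
multiplicative group of `K`.  Each ratio `a j / a i₀` that is not in `W` occurs at most `r` times as
a ratio of eigenvalues, where `4 r < dim U`, and either `dim U` is not divisible by `4` and some ratio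
`a j / a i₀` is not in `W`, or `r ^ 2 < dim U` and for every saturated subgroup `H` of `W` some
coset of `H` contains an odd number of eigenvalues. -/
def HasFewRatios (R : Representation K Γ X) (U : Submodule K X) (F : Γ) (W : Subgroup Kˣ) : Prop :=
  ∃ (n : ℕ) (b : Basis (Fin n) K U) (a : Fin n → Kˣ) (i₀ : Fin n) (r : ℕ),
    (∀ i, R F (b i : X) = (a i : K) • (b i : X)) ∧
    (∀ j, a j / a i₀ ∉ W → coincidences a (a j / a i₀) ≤ r) ∧ 4 * r < n ∧
    ((¬4 ∣ n ∧ ∃ j, a j / a i₀ ∉ W) ∨
      (r ^ 2 < n ∧ ∀ H ≤ W, IsSaturated a H → ∃ t : Kˣ, Odd (Nat.card {i // a i / t ∈ H})))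

/-- `x` is the operator that multiplies the eigenvectors, with eigenvalue `a`, of a diagonalizable
element `F` of the group by `w a - 1 / 2`, where `w a` is `0` or `1`; here `w` is a homomorphism from
the multiplicative group of `K` to the rational numbers with `w (χ F) = 1` (a valuation; `F` is a
Frobenius element at a place of ordinary reduction). -/
def IsOrdinarySlope (R : Representation K Γ X) (χ : Γ →* K) (x : Module.End K X) : Prop :=
  ∃ (F : Γ) (w : Additive Kˣ →+ ℚ) (n : ℕ) (b : Basis (Fin n) K X) (a : Fin n → Kˣ) (c : Kˣ),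
    (c : K) = χ F ∧ w (Additive.ofMul c) = 1 ∧ (∀ i, R F (b i) = (a i : K) • b i) ∧
    (∀ i, w (Additive.ofMul (a i)) = 0 ∨ w (Additive.ofMul (a i)) = 1) ∧
    ∀ i, x (b i) = (((w (Additive.ofMul (a i)) - 1 / 2 : ℚ)) : K) • b i

/-- For two ordinary slope operators `x` and `y` the multiplicity on `U` of some eigenvalue of
`x y + y x` other than `1 / 2` and `- 1 / 2` is four, or not divisible by four (it is even). -/
def HasOrdinaryPair (R : Representation K Γ X) (χ : Γ →* K) (U : Submodule K X) : Prop :=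
  ∃ x y : Module.End K X, IsOrdinarySlope R χ x ∧ IsOrdinarySlope R χ y ∧ ∃ (c : K) (d : ℕ),
    c * c ≠ 1 / 4 ∧
    2 * d = finrank K (Module.End.maxGenEigenspace (x * y + y * x) c ⊓ U : Submodule K X) ∧
    (d = 2 ∨ Odd d)

/-- Every strongly irreducible subspace `U` is self-dual with an alternating pairing, and satisfies
one of the two conditions. -/
def HasGoodPlaces (R : Representation K Γ X) (χ : Γ →* K) : Prop :=
  ∀ U, SI R U → AltDual R χ U ∧
    ((∃ (F : Γ) (W : Subgroup Kˣ), HasFewRatios R U F W) ∨ HasOrdinaryPair R χ U)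

end conditions

/-- The representation `ρ` on the `ℓ`-adic Tate module has the known properties (`Known`), and
`HasGoodPlaces`. -/
def GoodAt {ι : Type} [Fintype ι] [DecidableEq ι] {Γ : Type} [Group Γ] (ψ : Matrix ι ι ℚ)
    (E : Set (Matrix ι ι ℚ)) (ℓ : ℕ) [Fact ℓ.Prime] (ρ : Γ →* Matrix ι ι ℚ_[ℓ])
    (χ : Γ →* ℚ_[ℓ]) : Prop :=
  Known (AlgebraicClosure ℚ_[ℓ]) ρ χ (mapQ ℚ_[ℓ] ψ) (mapQ ℚ_[ℓ] '' E) ∧
    HasGoodPlaces (repM ρ (AlgebraicClosure ℚ_[ℓ]))
      ((algebraMap ℚ_[ℓ] (AlgebraicClosure ℚ_[ℓ])).toMonoidHom.comp χ)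

theorem result {ι : Type} [Fintype ι] [DecidableEq ι] (ψ : Matrix ι ι ℚ)
    (_halt : ψ.transpose = -ψ) (hψ : IsUnit ψ.det) (E : Set (Matrix ι ι ℚ))
    {Γ : Type} [Group Γ] (ρ : ∀ (ℓ : ℕ) [Fact ℓ.Prime], Γ →* Matrix ι ι ℚ_[ℓ])
    (χ : ∀ (ℓ : ℕ) [Fact ℓ.Prime], Γ →* ℚ_[ℓ]) (ℓ₀ : ℕ)
    (hgood : ∀ (ℓ : ℕ) [Fact ℓ.Prime], ℓ₀ ≤ ℓ → GoodAt ψ E ℓ (ρ ℓ) (χ ℓ)) :
    ∃ S : Set (MvPolynomial (ι × ι) ℚ),
      (∀ (L : Type) [Field L] [Algebra ℚ L] (g : Matrix ι ι L), IsUnit g.det →
        (IsZeroOf S g ↔ InLefschetz ψ E g)) ∧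
      ∀ (ℓ : ℕ) [Fact ℓ.Prime], ℓ₀ ≤ ℓ → ∀ Γ' : Subgroup Γ, Γ'.FiniteIndex →
        ∀ g : Matrix ι ι (AlgebraicClosure ℚ_[ℓ]), IsUnit g.det →
          (InIdentityComponent ((ρ ℓ).comp Γ'.subtype) g ↔ IsZeroOf S g) := by
  refine common_form ψ hψ E ρ χ ℓ₀ fun ℓ _ hℓ => ⟨(hgood ℓ hℓ).1, ?_⟩
  refine hasOne_of (unit_mapQ hψ ℓ) (hgood ℓ hℓ).1 fun L hL hnd hω hss hP hsl U hU => ?_
  obtain ⟨halt, h⟩ := (hgood ℓ hℓ).2 U hU
  refine ⟨halt, ?_⟩
  rcases h with ⟨F, W, n, b, a, i₀, r, hF, hr, hr4, hodd⟩ | ⟨x, y, hx, hy, c, d, hc, hd, hd2⟩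
  · refine one_of_grading hL hnd hω hss hU halt hP hF (W := W) (i₀ := i₀) (r := r) hr hr4 ?_
    rcases hodd with h | ⟨hrr, hodd⟩
    · exact Or.inl h
    · exact Or.inr ⟨by rw [← sq]; exact hrr, hodd⟩
  · have hmem : ∀ z : Module.End _ (ι → AlgebraicClosure ℚ_[ℓ]),
        IsOrdinarySlope (repM (ρ ℓ) (AlgebraicClosure ℚ_[ℓ]))
          ((algebraMap ℚ_[ℓ] (AlgebraicClosure ℚ_[ℓ])).toMonoidHom.comp (χ ℓ)) z →
        z ∈ L ∧ z * z = (1 / 4 : AlgebraicClosure ℚ_[ℓ]) • 1 := by
      rintro z ⟨F, w, n, b, a, e, he, hw, hF, h01, hz⟩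
      refine ⟨hsl F b a e w hF he hw z hz, b.ext fun i => ?_⟩
      rw [Module.End.mul_apply, hz, map_smul, hz, smul_smul, LinearMap.smul_apply,
        Module.End.one_apply]
      congr 1
      rcases h01 i with h | h
      · rw [h]; norm_num
      · rw [h]; norm_num
    have hd0 : d ≠ 0 := by
      rintro rfl
      rcases hd2 with h | h
      · omega
      · exact absurd h (by decide)
    exact one_of_pair_alt hL hnd hω hss hU (hmem x hx).1 (hmem y hy).1 (hmem x hx).2 (hmem y hy).2
      halt hc hd hd0 (hd2.imp_right fun h => Or.inl ⟨h, hP⟩)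

end

end Pool.Agent.Results.MP_e965d0_ag.GoodPlaces
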