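import Mathlib
import Pool.Agent.Y91.L.Com

/-!
# Common rational form of the monodromy groups: abelian varieties with non-coprime signatures

Let `X` be an abelian variety over a number field `F ⊆ ℂ` (more generally over a finitely generated
field), `H = H_1(X, ℚ)`, and let `V_ℓ = ℚ_ℓ ⊗ H` be its rational Tate modules. The identity component
of the Zariski closure of the image of the Galois group in the group of automorphisms of `V_ℓ` is
reductive (Faltings) and contains the homotheties (Bogomolov), so it is the group fixing the Tate
tensors, the multilinear forms in `2 n` variables on `V_ℓ` on which a subgroup of finite index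
acts through the `n`-th power of the cyclotomic character `χ` (up to the multiplier).

Suppose that the simple abelian subvarieties `U` of `X` over `ℂ` have the types of `GoodType`: `U` has
complex multiplication, or its dimension is one or a prime number, or `U` has a totally real maximal
subfield of endomorphisms with relative dimension odd or two, or a maximal subfield, CM or totally
real, with coprime multiplicities `(p, q)` on the tangent space at some place, or with
multiplicities `p ≠ q` at some place, not two neighbouring binomial coefficients, such that
`p + q` does not divide `gcd(p, q) gcd(p', q')` for all indefinite `(p', q')`, or `p = q` is odd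
everywhere (centre a CM field), or the endomorphism algebra is a CM field and `p = q = 2`
everywhere. Suppose that the `U` are not related by twists (`IsSeparated`).

**Theorem.** For every prime `ℓ` the space of the Tate tensors on `V_ℓ` is spanned over `ℚ_ℓ` by one
and the same space of rational tensors: the Hodge tensors. Hence the group `G` over `ℚ` which fixes
them (the Mumford-Tate group, which is connected and reductive and consists of similitudes of
the Riemann form) is a common `ℚ`-form of the identity components of all monodromy groups.

The hypotheses on the Tate modules (`IsTateModule`) are known theorems, the last hypothesis (Hodge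
tensors are Tate tensors) is the theorem of Deligne.
-/

namespace Pool.Agent.Results.MP_e965d0_ag.NonCoprimeSignatures

open Pool.Agent.Y90.St Pool.Agent.Y224.TS.St Pool.Agent.Y91.L TensorProduct

/-- **Common `ℚ`-form of the monodromy groups.** Let `X` be an abelian variety over a number
field, given by the period map `per : H → T` (`H = H_1(X, ℚ)`, `T` the tangent space) and a
polarization `E`, such that the simple abelian subvarieties of `X` over `ℂ` have one of the types of
`GoodType` and are not related by twists. For each prime `ℓ` let `ρ` be the representation of the
Galois group `Γ` on the Tate module `ℚ_ℓ ⊗ H`, with the known properties (`IsTateModule`; `χ` is the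
cyclotomic character, `ℂ` is identified with an algebraic closure of `ℚ_ℓ`), and suppose that
the extensions of Hodge tensors are Tate tensors (Deligne). Then the space of the Tate tensors on
`ℚ_ℓ ⊗ H` is spanned by the extensions of the Hodge tensors on `H`, a space of rational tensors
which does not depend on `ℓ`. -/
theorem result {H T : Type} [AddCommGroup H] [Module ℚ H] [AddCommGroup T] [Module ℂ T]
    (per : H →+ T) (hX : IsAV per) (hs : GoodType per) (ht : Pool.Agent.Y4.Q.IsSeparated per)
    (E : H → H → ℚ) (hE : IsPolarization per E)
    (ℓ : ℕ) [Fact ℓ.Prime] [Algebra ℚ_[ℓ] ℂ] [Algebra.IsAlgebraic ℚ_[ℓ] ℂ]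
    {Γ : Type} [Group Γ] (ρ : Representation ℚ_[ℓ] Γ (ℚ_[ℓ] ⊗[ℚ] H)) (χ : Γ →* ℚ_[ℓ])
    (hρ : IsTateModule per E ρ χ)
    -- the theorem of Deligne
    (hD : ∀ n, ∀ f : MultilinearMap ℚ (fun _ : Fin (2 * n) => H) ℚ,
      Pool.Agent.H204R3.CM.HodgeMul per f → ∀ φ, Extends ℚ_[ℓ] f φ → IsTateTensor ρ χ n φ)
    (n : ℕ) (φ : MultilinearMap ℚ_[ℓ] (fun _ : Fin (2 * n) => ℚ_[ℓ] ⊗[ℚ] H) ℚ_[ℓ]) :
    IsTateTensor ρ χ n φ ↔ φ ∈ Submodule.span ℚ_[ℓ]
      {ψ | ∃ f : MultilinearMap ℚ (fun _ : Fin (2 * n) => H) ℚ,
        Pool.Agent.H204R3.CM.HodgeMul per f ∧ Extends ℚ_[ℓ] f ψ} :=
  tate_span hX hs ht hE hρ hD n φ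

end Pool.Agent.Results.MP_e965d0_ag.NonCoprimeSignatures
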